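import Pool.Agent.Helper2.Sofic.Main

/-!
# The direct sum of commuting sofic actions with amenable orbit intersections

Let `γ` be an action of `⨁ i, G i` on `X` and let `α i` be its restriction to the `i`-th summand,
so that `γ` is the combined action of the pairwise commuting actions `α i`. If every `α i` is
sofic and, for all indices `i` outside a set `J` with at most one element, the action of
`{g ∈ G i | g x lies in the orbit of x under the other summands}` on the intersection of the two
orbits of `x` satisfies Følner's condition, for every point `x`, then `γ` is sofic.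
-/

namespace Pool.Agent.Results.MP_1f9cc6_al.AmenableIntersection

open Pool.Agent.Helper2.Sofic

theorem result {I X : Type} (G : I → Type) [∀ i, Group (G i)] (γ : DSum G →* Equiv.Perm X)
    (α : ∀ i, G i →* Equiv.Perm X)
    (hα : ∀ i (f : DSum G), (∀ j, j ≠ i → f.1 j = 1) → γ f = α i (f.1 i))
    (sofic : ∀ i, IsSofic (α i)) (J : Set I) (hJ : J.Subsingleton)
    (amen : ∀ i, i ∉ J → ∀ x, IsFolner (α i)
      {g | ∃ f : DSum G, f.1 i = 1 ∧ α i g x = γ f x}
      {z | (∃ g, z = α i g x) ∧ ∃ f : DSum G, f.1 i = 1 ∧ z = γ f x}) : IsSofic γ :=
  main G γ α hα sofic J hJ amen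

end Pool.Agent.Results.MP_1f9cc6_al.AmenableIntersection
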