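import Pool.Agent.Helper13.Sof.Main

/-!
# Two commuting sofic actions whose combined action is not sofic

The definitions `hdist`, `IsMult`, `IsOrbitApprox`, `IsSofic` and `DSum` are in
`Pool/Agent/Helper2/Sofic/Defs.lean` (they are those of the problem), `ResFin` is in
`Pool/Agent/Helper13/Sof/Alg.lean`.
-/

namespace Pool.Agent.Results.MP_1f9cc6_al.NotSofic

open Pool.Agent.Helper2.Sofic Pool.Agent.Helper13.Sof

/-- There are a countable set `X`, a finitely generated residually finite group `G` and two
commuting actions `α false`, `α true` of `G` on `X`, both free and both sofic, whose combined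
action `γ` of `G ⊕ G` is transitive and is not sofic. -/
theorem result : ∃ (X G : Type) (_ : Group G) (α : Bool → G →* Equiv.Perm X)
    (γ : DSum (fun _ : Bool => G) →* Equiv.Perm X),
    Countable X ∧ Countable G ∧ Group.FG G ∧ ResFin G ∧
    (∀ i j, i ≠ j → ∀ g h, α i g * α j h = α j h * α i g) ∧
    (∀ i g x, α i g x = x → g = 1) ∧
    (∀ i, IsSofic (α i)) ∧
    (∀ f, γ f = α false (f.1 false) * α true (f.1 true)) ∧
    (∀ x y, ∃ f, γ f x = y) ∧
    ¬ IsSofic γ :=
  main

end Pool.Agent.Results.MP_1f9cc6_al.NotSofic
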